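import Pool.Agent.P.MP_072d80_co.Geom

set_option autoImplicit false

namespace Pool.Agent.P.MP_072d80_co

open Set Filter Topology

/-- Coordinates of `y` in the basis `p, q, r`. -/
noncomputable def ca (p q r : Z3) (y : E3) : ℝ := form (cross q r) y / (det p q r : ℝ)
noncomputable def cb (p q r : Z3) (y : E3) : ℝ := form (cross r p) y / (det p q r : ℝ)
noncomputable def cc (p q r : Z3) (y : E3) : ℝ := form (cross p q) y / (det p q r : ℝ)

theorem coords_eq {p q r : Z3} (hD : det p q r ≠ 0) (y : E3) :
    y = ca p q r y • vec p + cb p q r y • vec q + cc p q r y • vec r := by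
  have hD' : (det p q r : ℝ) ≠ 0 := by exact_mod_cast hD
  have h := decomp p q r y
  have : y = (det p q r : ℝ)⁻¹ • ((det p q r : ℝ) • y) := by
    rw [smul_smul, inv_mul_cancel₀ hD', one_smul]
  rw [h] at this
  refine this.trans ?_
  simp only [ca, cb, cc, div_eq_inv_mul]
  module

theorem coords_of {p q r : Z3} (hD : det p q r ≠ 0) {y : E3} {a b c : ℝ}
    (h : y = a • vec p + b • vec q + c • vec r) :
    ca p q r y = a ∧ cb p q r y = b ∧ cc p q r y = c := by
  have hD' : (det p q r : ℝ) ≠ 0 := by exact_mod_cast hD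
  subst h
  refine ⟨?_, ?_, ?_⟩
  · rw [ca, form_add, form_add, form_smul, form_smul, form_smul, form_vec, form_vec, form_vec,
      dot_cross_a p q r, dot_cross_l q r, dot_cross_r q r]
    field_simp; simp
  · rw [cb, form_add, form_add, form_smul, form_smul, form_smul, form_vec, form_vec, form_vec,
      dot_cross_b p q r, dot_cross_l r p, dot_cross_r r p]
    field_simp; simp
  · rw [cc, form_add, form_add, form_smul, form_smul, form_smul, form_vec, form_vec, form_vec,
      dot_cross_c p q r, dot_cross_l p q, dot_cross_r p q]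
    field_simp; simp

theorem continuous_ca (p q r : Z3) : Continuous (ca p q r) :=
  (continuous_form _).div_const _
theorem continuous_cb (p q r : Z3) : Continuous (cb p q r) :=
  (continuous_form _).div_const _
theorem continuous_cc (p q r : Z3) : Continuous (cc p q r) :=
  (continuous_form _).div_const _

noncomputable def psi (p q r : Z3) (z : ℝ × ℝ) : E3 :=
  (1 - z.1 + z.2) • vec p + (1 + z.1 + z.2) • vec q + (-2 * z.2) • vec r

theorem psi_ne {p q r : Z3} (hD : det p q r ≠ 0) (z : ℝ × ℝ) : psi p q r z ≠ 0 := by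
  intro h
  have h1 := coords_of hD (y := psi p q r z) rfl
  have h2 := coords_of hD (y := psi p q r z) (a := 0) (b := 0) (c := 0) (by rw [h]; simp)
  linarith [h1.1, h1.2.1, h1.2.2, h2.1, h2.2.1, h2.2.2]

theorem psi_coords {p q r : Z3} (hD : det p q r ≠ 0) (z : ℝ × ℝ) :
    ∃ k : ℝ, 0 < k ∧ ca p q r (nrm (psi p q r z)) = k * (1 - z.1 + z.2) ∧
      cb p q r (nrm (psi p q r z)) = k * (1 + z.1 + z.2) ∧
      cc p q r (nrm (psi p q r z)) = k * (-2 * z.2) := by
  obtain ⟨k, hk, e⟩ := nrm_pos (psi_ne hD z)
  refine ⟨k, hk, coords_of hD ?_⟩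
  rw [e, psi]; module

noncomputable def chart {p q r : Z3} (hD : det p q r ≠ 0) : OpenPartialHomeomorph S2 (ℝ × ℝ) where
  toFun y := ((cb p q r y - ca p q r y) / (ca p q r y + cb p q r y + cc p q r y),
    (- cc p q r y) / (ca p q r y + cb p q r y + cc p q r y))
  invFun z := nrm (psi p q r z)
  source := {y | |cb p q r y - ca p q r y| < ca p q r y + cb p q r y + cc p q r y ∧
    |cc p q r y| < ca p q r y + cb p q r y + cc p q r y}
  target := {z | |z.1| < 1 ∧ |z.2| < 1}
  map_source' := by
    rintro y ⟨h1, h2⟩
    have h0 : 0 < ca p q r y + cb p q r y + cc p q r y := lt_of_le_of_lt (abs_nonneg _) h1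
    constructor
    · show |_ / _| < 1
      rw [abs_div, abs_of_pos h0, div_lt_one h0]; exact h1
    · show |_ / _| < 1
      rw [abs_div, abs_of_pos h0, div_lt_one h0, abs_neg]; exact h2
  map_target' := by
    rintro z ⟨h1, h2⟩
    obtain ⟨k, hk, e1, e2, e3⟩ := psi_coords hD z
    rw [abs_lt] at h1 h2
    constructor
    · rw [e1, e2, e3, abs_lt]; constructor <;> nlinarith [h1.1, h1.2]
    · rw [e1, e2, e3, abs_lt]; constructor <;> nlinarith [h2.1, h2.2]
  left_inv' := by
    rintro y ⟨h1, h2⟩
    have h0 : 0 < ca p q r y + cb p q r y + cc p q r y := lt_of_le_of_lt (abs_nonneg _) h1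
    apply nrm_eq (k := 2 / (ca p q r y + cb p q r y + cc p q r y)) (by positivity)
    have e := coords_eq hD (y : E3)
    set a := ca p q r y
    set b := cb p q r y
    set c := cc p q r y
    rw [e, psi]
    have f1 : 1 - (b - a) / (a + b + c) + -c / (a + b + c) = 2 / (a + b + c) * a := by
      field_simp; ring
    have f2 : 1 + (b - a) / (a + b + c) + -c / (a + b + c) = 2 / (a + b + c) * b := by
      field_simp; ring
    have f3 : -2 * (-c / (a + b + c)) = 2 / (a + b + c) * c := by
      field_simp
    simp only [f1, f2, f3]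
    module
  right_inv' := by
    rintro z -
    obtain ⟨k, hk, e1, e2, e3⟩ := psi_coords hD z
    rw [e1, e2, e3]
    have : k * (1 - z.1 + z.2) + k * (1 + z.1 + z.2) + k * (-2 * z.2) = 2 * k := by ring
    rw [this]
    ext
    · field_simp; ring
    · field_simp
  open_source := by
    have h1 := (continuous_ca p q r).comp (continuous_subtype_val (p := (· ∈ Metric.sphere (0 : E3) 1)))
    have h2 := (continuous_cb p q r).comp (continuous_subtype_val (p := (· ∈ Metric.sphere (0 : E3) 1)))
    have h3 := (continuous_cc p q r).comp (continuous_subtype_val (p := (· ∈ Metric.sphere (0 : E3) 1)))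
    exact (isOpen_lt (h2.sub h1).abs ((h1.add h2).add h3)).inter
      (isOpen_lt h3.abs ((h1.add h2).add h3))
  open_target :=
    (isOpen_lt continuous_fst.abs continuous_const).inter
      (isOpen_lt continuous_snd.abs continuous_const)
  continuousOn_toFun := by
    have h1 := (continuous_ca p q r).comp (continuous_subtype_val (p := (· ∈ Metric.sphere (0 : E3) 1)))
    have h2 := (continuous_cb p q r).comp (continuous_subtype_val (p := (· ∈ Metric.sphere (0 : E3) 1)))
    have h3 := (continuous_cc p q r).comp (continuous_subtype_val (p := (· ∈ Metric.sphere (0 : E3) 1)))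
    have h0 : ∀ y ∈ {y : S2 | |cb p q r y - ca p q r y| < ca p q r y + cb p q r y + cc p q r y ∧
        |cc p q r y| < ca p q r y + cb p q r y + cc p q r y},
        ca p q r y + cb p q r y + cc p q r y ≠ 0 := fun y hy =>
      (lt_of_le_of_lt (abs_nonneg _) hy.1).ne'
    exact ContinuousOn.prodMk ((h2.sub h1).continuousOn.div ((h1.add h2).add h3).continuousOn h0)
      (h3.neg.continuousOn.div ((h1.add h2).add h3).continuousOn h0)
  continuousOn_invFun := by
    intro z _
    have h1 : ContinuousAt (psi p q r) z := by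
      unfold psi; fun_prop
    exact (ContinuousAt.comp (f := psi p q r) (continuousAt_nrm (psi_ne hD z)) h1).continuousWithinAt

theorem sum_ne {p q r : Z3} (hD : det p q r ≠ 0) : vec p + vec q ≠ 0 := by
  have := psi_ne hD (0, 0)
  simpa [psi] using this

theorem vec_par {p q r s : Z3} (hs : p + q = r + s) : vec s = vec p + vec q - vec r := by
  rw [← vec_add, hs, vec_add]; abel

theorem transversal_par {p q r s : Z3} (hD : det p q r ≠ 0) (hs : p + q = r + s) :
    Transversal (cone (vec p) (vec q)) (cone (vec r) (vec s)) (nrm (vec p + vec q)) := by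
  obtain ⟨k, hk, e⟩ := nrm_pos (sum_ne hD)
  obtain ⟨e1, e2, e3⟩ := coords_of hD (y := nrm (vec p + vec q)) (a := k) (b := k) (c := 0)
    (by rw [e]; module)
  refine ⟨chart hD, ?_, ?_, ?_⟩
  · show _ ∧ _
    rw [e1, e2, e3]; constructor <;> simp [hk]
  · show (_, _) = _
    rw [e1, e2, e3]; simp
  · rintro y ⟨h1, h2⟩
    have h0 : 0 < ca p q r y + cb p q r y + cc p q r y := lt_of_le_of_lt (abs_nonneg _) h1
    have ey := coords_eq hD (y : E3)
    rw [abs_lt] at h1 h2
    constructor
    · show _ ↔ _ / _ = 0
      rw [div_eq_zero_iff, or_iff_left h0.ne', neg_eq_zero]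
      constructor
      · rintro ⟨a, b, -, -, h⟩
        exact (coords_of hD (a := a) (b := b) (c := 0) (by rw [h]; simp)).2.2
      · intro h
        refine ⟨ca p q r y, cb p q r y, by linarith [h1.1, h1.2], by linarith [h1.1, h1.2], ?_⟩
        rw [h] at ey
        simpa using ey
    · show _ ↔ _ / _ = 0
      rw [div_eq_zero_iff, or_iff_left h0.ne', sub_eq_zero]
      constructor
      · rintro ⟨a, b, -, -, h⟩
        have := coords_of hD (y := y) (a := b) (b := b) (c := a - b)
          (by rw [h, vec_par hs]; module)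
        rw [this.1, this.2.1]
      · intro h
        refine ⟨cc p q r y + ca p q r y, ca p q r y, by linarith [h2.1, h2.2],
          by linarith [h2.1, h2.2], ?_⟩
        rw [h] at ey
        rw [vec_par hs]
        refine ey.trans ?_
        module

/-- Two diagonals of a parallelogram meet in one point only. -/
theorem eq_center {p q r s : Z3} (hD : det p q r ≠ 0) (hs : p + q = r + s) {y : S2}
    (h1 : y ∈ cone (vec p) (vec q)) (h2 : y ∈ cone (vec r) (vec s)) :
    y = nrm (vec p + vec q) := by
  obtain ⟨a, b, ha, -, e1⟩ := h1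
  obtain ⟨c, d, -, -, e2⟩ := h2
  have k1 := coords_of hD (y := y) (a := a) (b := b) (c := 0) (by rw [e1]; simp)
  have k2 := coords_of hD (y := y) (a := d) (b := d) (c := c - d)
    (by rw [e2, vec_par hs]; module)
  have hab : b = a := by linarith [k1.1, k1.2.1, k2.1, k2.2.1]
  apply eq_nrm ha
  rw [e1, hab]; module

theorem center_mem {p q : E3} (h : p + q ≠ 0) : nrm (p + q) ∈ cone p q := by
  obtain ⟨k, hk, e⟩ := nrm_pos h
  exact ⟨k, k, hk.le, hk.le, by rw [e]; module⟩

end Pool.Agent.P.MP_072d80_co
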