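import Mathlib

set_option autoImplicit false

namespace Pool.Agent.P.MP_072d80_co

open Set

/-- The unit sphere in Euclidean three-space. -/
abbrev S2 : Type := Metric.sphere (0 : EuclideanSpace ℝ (Fin 3)) 1

/-- A drawing of a simple graph on the sphere: vertices are distinct points, each edge `uv` is a
simple arc (the image of an injective path) from `u` to `v` that meets no other vertex. -/
structure Drawing {V : Type} (G : SimpleGraph V) where
  pt : V → S2
  curve : Sym2 V → Set S2
  pt_injective : Function.Injective pt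
  curve_arc : ∀ u v, G.Adj u v →
    ∃ γ : Path (pt u) (pt v), Function.Injective γ ∧ range γ = curve s(u, v)
  curve_avoids : ∀ e ∈ G.edgeSet, ∀ w, pt w ∈ curve e → w ∈ e

/-- The sets `A` and `B` cross properly at `x`: in some chart around `x` they are the two
coordinate axes. -/
def Transversal (A B : Set S2) (x : S2) : Prop :=
  ∃ φ : OpenPartialHomeomorph S2 (ℝ × ℝ), x ∈ φ.source ∧ φ x = (0, 0) ∧
    ∀ y ∈ φ.source, (y ∈ A ↔ (φ y).2 = 0) ∧ (y ∈ B ↔ (φ y).1 = 0)

namespace Drawing

variable {V : Type} {G : SimpleGraph V} (D : Drawing G)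

/-- `x` is a crossing point of the distinct edges `e` and `f`: a common point of their arcs that
is not a vertex. -/
def Cross (e f : Sym2 V) (x : S2) : Prop :=
  e ∈ G.edgeSet ∧ f ∈ G.edgeSet ∧ e ≠ f ∧ x ∈ D.curve e ∧ x ∈ D.curve f ∧ x ∉ range D.pt

/-- A 1-plane drawing: crossings are proper, edges with a common end do not cross, and every edge
is crossed at most once (by one edge, at one point). -/
structure IsOnePlane : Prop where
  transversal : ∀ e f x, D.Cross e f x → Transversal (D.curve e) (D.curve f) x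
  independent : ∀ e f x, D.Cross e f x → ∀ v, v ∈ e → v ∉ f
  once : ∀ e f f' x x', D.Cross e f x → D.Cross e f' x' → f = f' ∧ x = x'

/-- An edge of `G` that is not crossed, that is, an edge of the plane subgraph `H`. -/
def Uncrossed (e : Sym2 V) : Prop := e ∈ G.edgeSet ∧ ∀ f x, ¬ D.Cross e f x

/-- The point set of the plane subgraph `H`: all vertices and all uncrossed edges. -/
def skeleton : Set S2 := range D.pt ∪ ⋃ e ∈ {e | D.Uncrossed e}, D.curve e

/-- A face of `H`: a connected component of the complement of `H` in the sphere. -/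
def IsFace (F : Set S2) : Prop := ∃ x ∉ D.skeleton, F = connectedComponentIn D.skeletonᶜ x

/-- The boundary of `F` is the `k`-cycle `c 0, c 1, …, c (k - 1)` of `H`. -/
def BoundedBy (F : Set S2) {k : ℕ} [NeZero k] (c : Fin k → V) : Prop :=
  Function.Injective c ∧ (∀ i, D.Uncrossed s(c i, c (i + 1))) ∧
    frontier F = ⋃ i, D.curve s(c i, c (i + 1))

/-- Conditions 1, 2, 3 in the definition of a near optimal 1-plane graph. -/
structure NearOptimal : Prop where
  tri_or_quad : ∀ F, D.IsFace F →
    (∃ c : Fin 3 → V, D.BoundedBy F c) ∨ (∃ c : Fin 4 → V, D.BoundedBy F c)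
  quad_crossing : ∀ F, D.IsFace F → ∀ c : Fin 4 → V, D.BoundedBy F c →
    ∃ x ∈ F, D.Cross s(c 0, c 2) s(c 1, c 3) x ∧ ∀ e f y, D.Cross e f y → y ∈ F → y = x
  tri_no_crossing : ∀ F, D.IsFace F → ∀ c : Fin 3 → V, D.BoundedBy F c →
    ∀ e f y, D.Cross e f y → y ∉ F
  tri_not_adjacent : ∀ F F', D.IsFace F → D.IsFace F' → F ≠ F' →
    ∀ c c' : Fin 3 → V, D.BoundedBy F c → D.BoundedBy F' c' →
      ∀ i j, s(c i, c (i + 1)) ≠ s(c' j, c' (j + 1))

end Drawing

/-- A graph is 1-planar if it has a 1-plane drawing. -/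
def IsOnePlanar {V : Type} (G : SimpleGraph V) : Prop := ∃ D : Drawing G, D.IsOnePlane

end Pool.Agent.P.MP_072d80_co
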