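import Pool.Agent.P.MP_072d80_co.Geo

set_option autoImplicit false

namespace Pool.Agent.P.MP_072d80_co

open Set Filter Topology

def face (L : List Z3) : Set S2 := {y | ∀ l ∈ L, 0 < form l y}
def cface (L : List Z3) : Set S2 := {y | ∀ l ∈ L, 0 ≤ form l y}

theorem continuous_form' (l : Z3) : Continuous fun y : S2 => form l y :=
  (continuous_form l).comp continuous_subtype_val

theorem isOpen_face (L : List Z3) : IsOpen (face L) := by
  have : face L = ⋂ l ∈ {l | l ∈ L}, {y : S2 | 0 < form l y} := by
    ext y; simp [face]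
  rw [this]
  exact (List.finite_toSet L).isOpen_biInter fun l _ =>
    isOpen_lt continuous_const (continuous_form' l)

theorem isClosed_cface (L : List Z3) : IsClosed (cface L) := by
  have : cface L = ⋂ l ∈ {l | l ∈ L}, {y : S2 | 0 ≤ form l y} := by
    ext y; simp [cface]
  rw [this]
  exact isClosed_biInter fun l _ => isClosed_le continuous_const (continuous_form' l)

theorem face_subset (L : List Z3) : face L ⊆ cface L := fun _ h l hl => (h l hl).le

theorem nrm_mem_face {L : List Z3} (hL : L ≠ []) {x : E3} (hx : ∀ l ∈ L, 0 < form l x) :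
    x ≠ 0 ∧ nrm x ∈ face L := by
  have h0 : x ≠ 0 := by
    rintro rfl
    obtain ⟨l, hl⟩ := List.exists_mem_of_ne_nil L hL
    have := hx l hl
    rw [form_zero] at this
    exact lt_irrefl _ this
  obtain ⟨k, hk, e⟩ := nrm_pos h0
  refine ⟨h0, fun l hl => ?_⟩
  rw [e, form_smul]
  exact mul_pos hk (hx l hl)

theorem nrm_self (y : S2) : nrm (y : E3) = y := nrm_eq one_pos (one_smul _ _).symm

theorem closure_face {L : List Z3} (hL : L ≠ []) {w : Z3} (hw : ∀ l ∈ L, 0 < dot l w) :
    closure (face L) = cface L := by
  apply Subset.antisymm (closure_minimal (face_subset L) (isClosed_cface L))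
  intro y hy
  have h1 : ContinuousAt (fun t : ℝ => (y : E3) + t • vec w) 0 := by fun_prop
  have h2 : ContinuousAt (fun t : ℝ => nrm ((y : E3) + t • vec w)) 0 :=
    ContinuousAt.comp (f := fun t : ℝ => (y : E3) + t • vec w)
      (continuousAt_nrm (by simpa using S2_ne y)) h1
  have h3 : Tendsto (fun t : ℝ => nrm ((y : E3) + t • vec w)) (𝓝[>] 0) (𝓝 y) := by
    have := h2.tendsto
    simp only [zero_smul, add_zero, nrm_self] at this
    exact this.mono_left nhdsWithin_le_nhds
  apply mem_closure_of_tendsto h3
  filter_upwards [self_mem_nhdsWithin] with t ht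
  refine (nrm_mem_face hL fun l hl => ?_).2
  rw [form_add, form_smul, form_vec]
  have h4 : (0 : ℝ) < dot l w := by exact_mod_cast hw l hl
  have h5 : (0 : ℝ) < t := ht
  have := hy l hl
  positivity

theorem isPreconnected_face {L : List Z3} (hL : L ≠ []) : IsPreconnected (face L) := by
  let C : Set E3 := {x | ∀ l ∈ L, 0 < form l x}
  have hC : Convex ℝ C := by
    intro x hx y hy a b ha hb hab l hl
    rw [form_add, form_smul, form_smul]
    have h1 := hx l hl
    have h2 := hy l hl
    rcases ha.lt_or_eq with h | h
    · have := mul_pos h h1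
      have := mul_nonneg hb h2.le
      linarith
    · have : b = 1 := by linarith
      rw [← h, this]; linarith
  have : face L = nrm '' C := by
    ext y
    constructor
    · intro hy
      exact ⟨y, hy, nrm_self y⟩
    · rintro ⟨x, hx, rfl⟩
      exact (nrm_mem_face hL hx).2
  rw [this]
  exact hC.isPreconnected.image _ fun x hx =>
    (continuousAt_nrm (nrm_mem_face hL hx).1).continuousWithinAt

theorem frontier_face {L : List Z3} (hL : L ≠ []) {w : Z3} (hw : ∀ l ∈ L, 0 < dot l w) :
    frontier (face L) = cface L \ face L := by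
  rw [(isOpen_face L).frontier_eq, closure_face hL hw]

theorem component_face {L : List Z3} (hL : L ≠ []) {K : Set S2} (h1 : face L ⊆ Kᶜ)
    (h2 : cface L \ face L ⊆ K) {x : S2} (hx : x ∈ face L) :
    connectedComponentIn Kᶜ x = face L := by
  apply Subset.antisymm
  · have hp : IsPreconnected (connectedComponentIn Kᶜ x) := isPreconnected_connectedComponentIn
    apply hp.subset_left_of_subset_union (isOpen_face L) (isClosed_cface L).isOpen_compl
    · exact Set.disjoint_left.2 fun y hy hy' => hy' (face_subset L hy)
    · intro y hy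
      have hyK : y ∈ Kᶜ := connectedComponentIn_subset _ _ hy
      by_cases h3 : y ∈ cface L
      · left
        by_contra h4
        exact hyK (h2 ⟨h3, h4⟩)
      · exact Or.inr h3
    · exact ⟨x, mem_connectedComponentIn (h1 hx), hx⟩
  · exact (isPreconnected_face hL).subset_connectedComponentIn hx h1

theorem not_mem_face_of_cone {L : List Z3} {p q l : Z3} (hl : l ∈ L) (hp : dot l p ≤ 0)
    (hq : dot l q ≤ 0) {y : S2} (hy : y ∈ cone (vec p) (vec q)) : y ∉ face L := by
  intro h
  obtain ⟨a, b, ha, hb, e⟩ := hy
  have h1 := h l hl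
  rw [e, form_add, form_smul, form_smul, form_vec, form_vec] at h1
  have hp' : (dot l p : ℝ) ≤ 0 := by exact_mod_cast hp
  have hq' : (dot l q : ℝ) ≤ 0 := by exact_mod_cast hq
  nlinarith [mul_nonneg ha (neg_nonneg.2 hp'), mul_nonneg hb (neg_nonneg.2 hq')]

theorem mem_cface_of_cone {L : List Z3} {p q : Z3} (h : ∀ l ∈ L, 0 ≤ dot l p ∧ 0 ≤ dot l q)
    {y : S2} (hy : y ∈ cone (vec p) (vec q)) : y ∈ cface L := by
  intro l hl
  obtain ⟨a, b, ha, hb, e⟩ := hy
  rw [e, form_add, form_smul, form_smul, form_vec, form_vec]
  have hp' : (0 : ℝ) ≤ dot l p := by exact_mod_cast (h l hl).1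
  have hq' : (0 : ℝ) ≤ dot l q := by exact_mod_cast (h l hl).2
  positivity

def triL (p q r : Z3) : List Z3 := [cross p q, cross q r, cross r p]
def quadL (p q r s : Z3) : List Z3 := [cross p q, cross q r, cross r s, cross s p]

theorem tri_bdry {p q r : Z3} (hD : 0 < det p q r) {y : S2}
    (hy : y ∈ cface (triL p q r) \ face (triL p q r)) :
    y ∈ cone (vec p) (vec q) ∨ y ∈ cone (vec q) (vec r) ∨ y ∈ cone (vec r) (vec p) := by
  obtain ⟨h1, h2⟩ := hy
  have hD' : (0 : ℝ) < det p q r := by exact_mod_cast hD
  have e := coords_eq hD.ne' (y : E3)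
  have k1 := h1 (cross p q) (by simp [triL])
  have k2 := h1 (cross q r) (by simp [triL])
  have k3 := h1 (cross r p) (by simp [triL])
  have ha : 0 ≤ ca p q r y := div_nonneg k2 hD'.le
  have hb : 0 ≤ cb p q r y := div_nonneg k3 hD'.le
  have hc : 0 ≤ cc p q r y := div_nonneg k1 hD'.le
  rcases k1.lt_or_eq with k1 | k1
  · rcases k2.lt_or_eq with k2 | k2
    · rcases k3.lt_or_eq with k3 | k3
      · exfalso
        apply h2
        intro l hl
        simp only [triL, List.mem_cons, List.not_mem_nil, or_false] at hl
        rcases hl with rfl | rfl | rfl <;> assumption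
      · have : cb p q r y = 0 := by rw [cb, ← k3, zero_div]
        rw [this] at e
        exact Or.inr (Or.inr ⟨_, _, hc, ha, e.trans (by module)⟩)
    · have : ca p q r y = 0 := by rw [ca, ← k2, zero_div]
      rw [this] at e
      exact Or.inr (Or.inl ⟨_, _, hb, hc, e.trans (by module)⟩)
  · have : cc p q r y = 0 := by rw [cc, ← k1, zero_div]
    rw [this] at e
    exact Or.inl ⟨_, _, ha, hb, e.trans (by module)⟩

theorem quad_bdry {p q r s : Z3} (hD : 0 < det p q r) (hs : p + r = q + s) {y : S2}
    (hy : y ∈ cface (quadL p q r s) \ face (quadL p q r s)) :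
    y ∈ cone (vec p) (vec q) ∨ y ∈ cone (vec q) (vec r) ∨ y ∈ cone (vec r) (vec s) ∨
      y ∈ cone (vec s) (vec p) := by
  obtain ⟨h1, h2⟩ := hy
  have hD' : (0 : ℝ) < det p q r := by exact_mod_cast hD
  have e := coords_eq hD.ne' (y : E3)
  have hs' : s = p + r - q := by rw [hs]; abel
  have hv : vec s = vec p + vec r - vec q := vec_par hs
  have f3 : form (cross r s) y = form (cross q r) y + form (cross r p) y := by
    rw [hs']; simp [form, cross]; ring
  have f4 : form (cross s p) y = form (cross p q) y + form (cross r p) y := by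
    rw [hs']; simp [form, cross]; ring
  have k1 := h1 (cross p q) (by simp [quadL])
  have k2 := h1 (cross q r) (by simp [quadL])
  have k3 := h1 (cross r s) (by simp [quadL])
  have k4 := h1 (cross s p) (by simp [quadL])
  have ha : 0 ≤ ca p q r y := div_nonneg k2 hD'.le
  have hc : 0 ≤ cc p q r y := div_nonneg k1 hD'.le
  have g3 : ca p q r y + cb p q r y = form (cross r s) y / det p q r := by
    rw [f3, ca, cb, add_div]
  have g4 : cc p q r y + cb p q r y = form (cross s p) y / det p q r := by
    rw [f4, cc, cb, add_div]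
  have hab : 0 ≤ ca p q r y + cb p q r y := g3 ▸ div_nonneg k3 hD'.le
  have hcb : 0 ≤ cc p q r y + cb p q r y := g4 ▸ div_nonneg k4 hD'.le
  rcases k1.lt_or_eq with k1 | k1
  · rcases k2.lt_or_eq with k2 | k2
    · rcases k3.lt_or_eq with k3 | k3
      · rcases k4.lt_or_eq with k4 | k4
        · exfalso
          apply h2
          intro l hl
          simp only [quadL, List.mem_cons, List.not_mem_nil, or_false] at hl
          rcases hl with rfl | rfl | rfl | rfl <;> assumption
        · rw [← k4, zero_div] at g4
          have : cb p q r y = - cc p q r y := by linarith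
          refine Or.inr (Or.inr (Or.inr ⟨cc p q r y, ca p q r y - cc p q r y, hc, by linarith, ?_⟩))
          rw [this] at e
          rw [hv]
          exact e.trans (by module)
      · rw [← k3, zero_div] at g3
        have : cb p q r y = - ca p q r y := by linarith
        refine Or.inr (Or.inr (Or.inl ⟨cc p q r y - ca p q r y, ca p q r y, by linarith, ha, ?_⟩))
        rw [this] at e
        rw [hv]
        exact e.trans (by module)
    · have : ca p q r y = 0 := by rw [ca, ← k2, zero_div]
      rw [this] at e hab
      exact Or.inr (Or.inl ⟨cb p q r y, _, by linarith, hc, e.trans (by module)⟩)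
  · have : cc p q r y = 0 := by rw [cc, ← k1, zero_div]
    rw [this] at e hcb
    exact Or.inl ⟨_, cb p q r y, ha, by linarith, e.trans (by module)⟩

end Pool.Agent.P.MP_072d80_co
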