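import Pool.Agent.P.MP_072d80_co.Chart

set_option autoImplicit false

namespace Pool.Agent.P.MP_072d80_co

open Set Filter Topology

def Par (p q r s : Z3) : Prop := det p q r ≠ 0 ∧ p + q = r + s

instance (p q r s : Z3) : Decidable (Par p q r s) := by unfold Par; infer_instance

structure Good {V : Type} (G : SimpleGraph V) (c : V → Z3) : Prop where
  ne0 : ∀ u, c u ≠ 0
  sepV : ∀ u v, u ≠ v → sepB (c u) (c u) (c v) (c v) = true
  ind : ∀ u v, G.Adj u v → indB (c u) (c v) = true
  sepE : ∀ u v, G.Adj u v → ∀ w, w ≠ u → w ≠ v → sepB (c u) (c v) (c w) (c w) = true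
  pair : ∀ u v, G.Adj u v → ∀ r s, G.Adj r s → ¬ ((u = r ∧ v = s) ∨ (u = s ∧ v = r)) →
    sepB (c u) (c v) (c r) (c s) = true ∨ Par (c u) (c v) (c r) (c s)
  uniq : ∀ u v, G.Adj u v → ∀ r s, G.Adj r s → Par (c u) (c v) (c r) (c s) →
    ∀ r' s', G.Adj r' s' → Par (c u) (c v) (c r') (c s') →
      (r = r' ∧ s = s') ∨ (r = s' ∧ s = r')

theorem Good.mono {V : Type} {G G' : SimpleGraph V} {c : V → Z3} (hle : G ≤ G')
    (h : Good G' c) : Good G c where
  ne0 := h.ne0
  sepV := h.sepV
  ind u v a := h.ind u v (hle a)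
  sepE u v a := h.sepE u v (hle a)
  pair u v a r s b := h.pair u v (hle a) r s (hle b)
  uniq u v a r s b p r' s' b' := h.uniq u v (hle a) r s (hle b) p r' s' (hle b')

theorem vec_ne {p : Z3} (h : p ≠ 0) : vec p ≠ 0 := by
  intro e
  apply h
  have e0 := congrArg (fun y : E3 => y 0) e
  have e1 := congrArg (fun y : E3 => y 1) e
  have e2 := congrArg (fun y : E3 => y 2) e
  simp [vec] at e0 e1 e2
  ext <;> simp [e0, e1, e2]

variable {V : Type} {G : SimpleGraph V} {c : V → Z3}

theorem Good.indep (h : Good G c) {u v : V} (a : G.Adj u v) : Indep (vec (c u)) (vec (c v)) :=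
  indep_of (h.ind u v a) (h.ind v u a.symm)

theorem Good.pt_inj (h : Good G c) : Function.Injective fun v => nrm (vec (c v)) := by
  intro u v e
  by_contra hne
  obtain ⟨k, hk, e1⟩ := nrm_pos (vec_ne (h.ne0 u))
  obtain ⟨k', hk', e2⟩ := nrm_pos (vec_ne (h.ne0 v))
  have e' : nrm (vec (c u)) = nrm (vec (c v)) := e
  rw [e', e2] at e1
  apply sep_ne (h.sepV u v hne) (half_pos hk) (half_pos hk) (half_pos hk') (half_pos hk')
  rw [← add_smul, ← add_smul, add_halves, add_halves, e1]

theorem Good.avoid (h : Good G c) {u v w : V} (a : G.Adj u v)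
    (hw : nrm (vec (c w)) ∈ cone (vec (c u)) (vec (c v))) : w = u ∨ w = v := by
  rcases cone_cases hw with h1 | h1 | ⟨x, y, hx, hy, e⟩
  · exact Or.inl (h.pt_inj h1)
  · exact Or.inr (h.pt_inj h1)
  · obtain ⟨k, hk, e1⟩ := nrm_pos (vec_ne (h.ne0 w))
    by_cases hu : w = u
    · exact Or.inl hu
    by_cases hv : w = v
    · exact Or.inr hv
    exfalso
    apply sep_ne (h.sepE u v a w hu hv) hx hy (half_pos hk) (half_pos hk)
    rw [← add_smul, add_halves, ← e1, e]

noncomputable def Good.geo (h : Good G c) : Drawing G where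
  pt v := nrm (vec (c v))
  curve := Sym2.lift ⟨fun u v => cone (vec (c u)) (vec (c v)), fun _ _ => cone_comm _ _⟩
  pt_injective := h.pt_inj
  curve_arc u v a := exists_path (h.indep a)
  curve_avoids := by
    intro e he w hw
    induction e using Sym2.ind with
    | h u v =>
      rcases h.avoid he hw with h1 | h1 <;> simp [h1]

theorem Good.geo_curve (h : Good G c) (u v : V) :
    h.geo.curve s(u, v) = cone (vec (c u)) (vec (c v)) := rfl

theorem Good.geo_pt (h : Good G c) (u : V) : h.geo.pt u = nrm (vec (c u)) := rfl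

theorem det_self_l (p q : Z3) : det p q p = 0 := dot_cross_l p q
theorem det_self_r (p q : Z3) : det p q q = 0 := dot_cross_r p q

theorem Par.swap {p q r s : Z3} (h : Par p q r s) : Par p q s r := by
  obtain ⟨h1, h2⟩ := h
  refine ⟨?_, by rw [h2, add_comm]⟩
  have : s = p + q - r := by rw [h2]; abel
  intro h0
  apply h1
  rw [this] at h0
  simp only [det, dot, cross, Prod.fst_sub, Prod.fst_add, Prod.snd_sub, Prod.snd_add] at h0 ⊢
  linarith

theorem Good.cross_iff (h : Good G c) {u v r s : V} {x : S2} :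
    h.geo.Cross s(u, v) s(r, s) x ↔ G.Adj u v ∧ G.Adj r s ∧ Par (c u) (c v) (c r) (c s) ∧
      x = nrm (vec (c u) + vec (c v)) := by
  constructor
  · rintro ⟨a, b, hne, h1, h2, h3⟩
    have a' : G.Adj u v := a
    have b' : G.Adj r s := b
    have hp : Par (c u) (c v) (c r) (c s) := by
      rcases h.pair u v a' r s b' (fun e => hne (Sym2.eq_iff.2 e)) with h4 | h4
      · exfalso
        rcases cone_cases h1 with e | e | ⟨x1, y1, hx1, hy1, e1⟩
        · exact h3 ⟨u, e.symm⟩
        · exact h3 ⟨v, e.symm⟩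
        rcases cone_cases h2 with e | e | ⟨x2, y2, hx2, hy2, e2⟩
        · exact h3 ⟨r, e.symm⟩
        · exact h3 ⟨s, e.symm⟩
        exact sep_ne h4 hx1 hy1 hx2 hy2 (e1.symm.trans e2)
      · exact h4
    exact ⟨a', b', hp, eq_center hp.1 hp.2 h1 h2⟩
  · rintro ⟨a, b, hp, rfl⟩
    have hru : r ≠ u := by
      rintro rfl; exact hp.1 (det_self_l _ _)
    have hrv : r ≠ v := by
      rintro rfl; exact hp.1 (det_self_r _ _)
    have hm1 : nrm (vec (c u) + vec (c v)) ∈ cone (vec (c u)) (vec (c v)) :=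
      center_mem (sum_ne hp.1)
    have hm2 : nrm (vec (c u) + vec (c v)) ∈ cone (vec (c r)) (vec (c s)) := by
      have e : vec (c u) + vec (c v) = vec (c r) + vec (c s) := by
        rw [← vec_add, hp.2, vec_add]
      have := sum_ne hp.1
      rw [e] at this ⊢
      exact center_mem this
    refine ⟨a, b, ?_, hm1, hm2, ?_⟩
    · intro e
      rcases Sym2.eq_iff.1 e with e | e
      · exact hru e.1.symm
      · exact hrv e.2.symm
    · rintro ⟨w, hw⟩
      have hw' : nrm (vec (c w)) = nrm (vec (c u) + vec (c v)) := hw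
      rw [← hw'] at hm1 hm2
      have hsu : s ≠ u := by
        rintro rfl; exact hp.swap.1 (det_self_l _ _)
      have hsv : s ≠ v := by
        rintro rfl; exact hp.swap.1 (det_self_r _ _)
      rcases h.avoid a hm1 with e1 | e1 <;> rcases h.avoid b hm2 with e2 | e2
      · exact hru (e2.symm.trans e1)
      · exact hsu (e2.symm.trans e1)
      · exact hrv (e2.symm.trans e1)
      · exact hsv (e2.symm.trans e1)

theorem Good.onePlane (h : Good G c) : h.geo.IsOnePlane where
  transversal := by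
    intro e f x hx
    induction e using Sym2.ind with
    | h u v =>
    induction f using Sym2.ind with
    | h r s =>
    obtain ⟨-, -, hp, rfl⟩ := h.cross_iff.1 hx
    exact transversal_par hp.1 hp.2
  independent := by
    intro e f x hx w hw1 hw2
    induction e using Sym2.ind with
    | h u v =>
    induction f using Sym2.ind with
    | h r s =>
    obtain ⟨-, -, hp, rfl⟩ := h.cross_iff.1 hx
    rcases Sym2.mem_iff.1 hw1 with e1 | e1 <;> rcases Sym2.mem_iff.1 hw2 with e2 | e2
    · subst e1; subst e2; exact hp.1 (det_self_l _ _)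
    · subst e1; subst e2; exact hp.swap.1 (det_self_l _ _)
    · subst e1; subst e2; exact hp.1 (det_self_r _ _)
    · subst e1; subst e2; exact hp.swap.1 (det_self_r _ _)
  once := by
    intro e f f' x x' hx hx'
    induction e using Sym2.ind with
    | h u v =>
    induction f using Sym2.ind with
    | h r s =>
    induction f' using Sym2.ind with
    | h r' s' =>
    obtain ⟨a, b, hp, rfl⟩ := h.cross_iff.1 hx
    obtain ⟨-, b', hp', rfl⟩ := h.cross_iff.1 hx'
    exact ⟨Sym2.eq_iff.2 (h.uniq u v a r s b hp r' s' b' hp'), rfl⟩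

theorem Good.uncrossed_iff (h : Good G c) {u v : V} :
    h.geo.Uncrossed s(u, v) ↔ G.Adj u v ∧ ∀ r s, G.Adj r s → ¬ Par (c u) (c v) (c r) (c s) := by
  constructor
  · rintro ⟨a, hn⟩
    exact ⟨a, fun r s b hp => hn s(r, s) _ (h.cross_iff.2 ⟨a, b, hp, rfl⟩)⟩
  · rintro ⟨a, hn⟩
    refine ⟨a, fun f x hx => ?_⟩
    induction f using Sym2.ind with
    | h r s =>
    obtain ⟨-, b, hp, -⟩ := h.cross_iff.1 hx
    exact hn r s b hp

theorem Good.mem_skeleton (h : Good G c) (hcov : ∀ w, ∃ v, h.geo.Uncrossed s(w, v)) {y : S2} :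
    y ∈ h.geo.skeleton ↔ ∃ u v, h.geo.Uncrossed s(u, v) ∧ y ∈ cone (vec (c u)) (vec (c v)) := by
  constructor
  · rintro (⟨w, rfl⟩ | hy)
    · obtain ⟨v, hv⟩ := hcov w
      exact ⟨w, v, hv, nrm_mem_cone_left _ (vec_ne (h.ne0 w))⟩
    · simp only [mem_iUnion, mem_ofPred_eq, exists_prop] at hy
      obtain ⟨e, he, hy⟩ := hy
      induction e using Sym2.ind with
      | h u v => exact ⟨u, v, he, hy⟩
  · rintro ⟨u, v, he, hy⟩
    right
    simp only [mem_iUnion, mem_ofPred_eq, exists_prop]
    exact ⟨s(u, v), he, hy⟩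

end Pool.Agent.P.MP_072d80_co
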