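import Pool.Agent.P.MP_072d80_co.Defs

set_option autoImplicit false

namespace Pool.Agent.P.MP_072d80_co

open Set Filter Topology

abbrev E3 : Type := EuclideanSpace ℝ (Fin 3)

abbrev Z3 : Type := ℤ × ℤ × ℤ

noncomputable def vec (p : Z3) : E3 := !₂[(p.1 : ℝ), (p.2.1 : ℝ), (p.2.2 : ℝ)]

def form (l : Z3) (y : E3) : ℝ := (l.1 : ℝ) * y 0 + (l.2.1 : ℝ) * y 1 + (l.2.2 : ℝ) * y 2

def dot (l p : Z3) : ℤ := l.1 * p.1 + l.2.1 * p.2.1 + l.2.2 * p.2.2

def cross (p q : Z3) : Z3 :=
  (p.2.1 * q.2.2 - p.2.2 * q.2.1, p.2.2 * q.1 - p.1 * q.2.2, p.1 * q.2.1 - p.2.1 * q.1)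

def det (p q r : Z3) : ℤ := dot (cross p q) r

theorem form_vec (l p : Z3) : form l (vec p) = (dot l p : ℝ) := by
  simp [form, vec, dot]

theorem form_add (l : Z3) (x y : E3) : form l (x + y) = form l x + form l y := by
  simp [form]; ring

theorem form_smul (l : Z3) (a : ℝ) (x : E3) : form l (a • x) = a * form l x := by
  simp [form]; ring

theorem form_zero (l : Z3) : form l 0 = 0 := by simp [form]

theorem continuous_form (l : Z3) : Continuous (form l) := by
  unfold form; fun_prop

theorem vec_add (p q : Z3) : vec (p + q) = vec p + vec q := by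
  ext i; fin_cases i <;> simp [vec]

theorem vec_sub (p q : Z3) : vec (p - q) = vec p - vec q := by
  ext i; fin_cases i <;> simp [vec]

open Classical in
noncomputable def nrm (x : E3) : S2 :=
  if h : x = 0 then ⟨EuclideanSpace.single 0 1, by simp⟩
  else ⟨‖x‖⁻¹ • x, by simp [norm_smul, h]⟩

theorem nrm_val {x : E3} (h : x ≠ 0) : (nrm x : E3) = ‖x‖⁻¹ • x := by
  simp [nrm, h]

theorem S2_norm (y : S2) : ‖(y : E3)‖ = 1 := by
  simp

theorem S2_ne (y : S2) : (y : E3) ≠ 0 := by
  intro h
  have := S2_norm y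
  rw [h] at this
  simp at this

theorem nrm_pos {x : E3} (h : x ≠ 0) : ∃ k : ℝ, 0 < k ∧ (nrm x : E3) = k • x :=
  ⟨‖x‖⁻¹, inv_pos.2 (norm_pos_iff.2 h), nrm_val h⟩

theorem nrm_eq {x : E3} {y : S2} {k : ℝ} (hk : 0 < k) (h : x = k • (y : E3)) : nrm x = y := by
  have hx : x ≠ 0 := by
    rw [h]; exact smul_ne_zero hk.ne' (S2_ne y)
  apply Subtype.ext
  rw [nrm_val hx, h, norm_smul, S2_norm, smul_smul]
  simp [abs_of_pos hk, hk.ne']

theorem eq_nrm {x : E3} {y : S2} {k : ℝ} (hk : 0 ≤ k) (h : (y : E3) = k • x) : y = nrm x := by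
  have hk' : k ≠ 0 := by
    rintro rfl
    exact S2_ne y (by simpa using h)
  have hk2 : 0 < k := lt_of_le_of_ne hk hk'.symm
  symm
  apply nrm_eq (inv_pos.2 hk2)
  rw [h, smul_smul, inv_mul_cancel₀ hk', one_smul]

theorem continuousAt_nrm {x : E3} (h : x ≠ 0) : ContinuousAt nrm x := by
  rw [Topology.IsInducing.subtypeVal.continuousAt_iff]
  have h1 : ContinuousAt (fun z : E3 => ‖z‖⁻¹ • z) x :=
    (continuous_norm.continuousAt.inv₀ (norm_ne_zero_iff.2 h)).smul continuousAt_id
  refine h1.congr ?_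
  filter_upwards [isOpen_ne.mem_nhds h] with z hz
  exact (nrm_val hz).symm

/-- The great-circle arc spanned by two vectors. -/
def cone (p q : E3) : Set S2 := {y | ∃ a b : ℝ, 0 ≤ a ∧ 0 ≤ b ∧ (y : E3) = a • p + b • q}

theorem cone_comm (p q : E3) : cone p q = cone q p := by
  ext y
  constructor <;> rintro ⟨a, b, ha, hb, h⟩ <;> exact ⟨b, a, hb, ha, by rw [h, add_comm]⟩

def Indep (p q : E3) : Prop := ∀ a b : ℝ, a • p + b • q = 0 → a = 0 ∧ b = 0

theorem Indep.left_ne {p q : E3} (h : Indep p q) : p ≠ 0 := by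
  intro hp
  have := (h 1 0 (by simp [hp])).1
  simp at this

theorem Indep.right_ne {p q : E3} (h : Indep p q) : q ≠ 0 := by
  intro hp
  have := (h 0 1 (by simp [hp])).2
  simp at this

theorem Indep.seg_ne {p q : E3} (h : Indep p q) (t : ℝ) : (1 - t) • p + t • q ≠ 0 := by
  intro h0
  obtain ⟨h1, h2⟩ := h _ _ h0
  linarith

theorem exists_path {p q : E3} (h : Indep p q) :
    ∃ γ : Path (nrm p) (nrm q), Function.Injective γ ∧ range γ = cone p q := by
  have hc : Continuous (fun t : unitInterval => nrm ((1 - (t : ℝ)) • p + (t : ℝ) • q)) := by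
    rw [continuous_iff_continuousAt]
    intro t
    have h1 : ContinuousAt (fun t : unitInterval => (1 - (t : ℝ)) • p + (t : ℝ) • q) t := by
      fun_prop
    exact ContinuousAt.comp (f := fun t : unitInterval => (1 - (t : ℝ)) • p + (t : ℝ) • q)
      (continuousAt_nrm (h.seg_ne t)) h1
  refine ⟨⟨⟨_, hc⟩, by simp, by simp⟩, ?_, ?_⟩
  · intro s t hst
    have hst' : nrm ((1 - (s : ℝ)) • p + (s : ℝ) • q) = nrm ((1 - (t : ℝ)) • p + (t : ℝ) • q) := hst
    obtain ⟨k, hk, e1⟩ := nrm_pos (h.seg_ne s)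
    obtain ⟨k', hk', e2⟩ := nrm_pos (h.seg_ne t)
    rw [hst', e2] at e1
    have := h (k * (1 - s) - k' * (1 - t)) (k * s - k' * t) (by
      have e3 : (k * (1 - (s : ℝ)) - k' * (1 - t)) • p + (k * (s : ℝ) - k' * t) • q
          = k • ((1 - (s : ℝ)) • p + (s : ℝ) • q) - k' • ((1 - (t : ℝ)) • p + (t : ℝ) • q) := by
        module
      rw [e3, ← e1, sub_self])
    have hkk : k = k' := by linarith [this.1, this.2]
    apply Subtype.ext
    have h4 := this.2
    rw [hkk] at h4
    have : k' * ((s : ℝ) - t) = 0 := by linarith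
    rcases mul_eq_zero.1 this with h5 | h5
    · exact absurd h5 hk'.ne'
    · linarith
  · ext y
    constructor
    · rintro ⟨t, rfl⟩
      obtain ⟨k, hk, e1⟩ := nrm_pos (h.seg_ne t)
      refine ⟨k * (1 - t), k * t, mul_nonneg hk.le (by linarith [t.2.2]),
        mul_nonneg hk.le t.2.1, ?_⟩
      show (nrm ((1 - (t : ℝ)) • p + (t : ℝ) • q) : E3) = _
      rw [e1]; module
    · rintro ⟨a, b, ha, hb, e⟩
      have hab : 0 < a + b := by
        rcases (add_nonneg ha hb).lt_or_eq with h1 | h1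
        · exact h1
        · exfalso
          have ha0 : a = 0 := by linarith
          have hb0 : b = 0 := by linarith
          exact S2_ne y (by rw [e, ha0, hb0]; simp)
      refine ⟨⟨b / (a + b), div_nonneg hb hab.le, (div_le_one hab).2 (by linarith)⟩, ?_⟩
      show nrm ((1 - b / (a + b)) • p + (b / (a + b)) • q) = y
      apply nrm_eq (inv_pos.2 hab)
      rw [e]
      have : (1 - b / (a + b)) = (a + b)⁻¹ * a := by field_simp; ring
      rw [this, div_eq_inv_mul]; module

theorem nrm_mem_cone_left {p : E3} (q : E3) (hp : p ≠ 0) : nrm p ∈ cone p q := by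
  obtain ⟨k, hk, e⟩ := nrm_pos hp
  exact ⟨k, 0, hk.le, le_rfl, by rw [e]; simp⟩

/-- A point of an arc is an end or a positive combination. -/
theorem cone_cases {p q : E3} {y : S2} (h : y ∈ cone p q) :
    y = nrm p ∨ y = nrm q ∨ ∃ a b : ℝ, 0 < a ∧ 0 < b ∧ (y : E3) = a • p + b • q := by
  obtain ⟨a, b, ha, hb, e⟩ := h
  rcases hb.lt_or_eq with hb' | hb'
  · rcases ha.lt_or_eq with ha' | ha'
    · exact Or.inr (Or.inr ⟨a, b, ha', hb', e⟩)
    · exact Or.inr (Or.inl (eq_nrm hb (by rw [e, ← ha']; simp)))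
  · exact Or.inl (eq_nrm ha (by rw [e, ← hb']; simp))

def smallInts : List ℤ := [0, 1, -1, 2, -2]

def smallForms : List Z3 :=
  smallInts.flatMap fun a => smallInts.flatMap fun b => smallInts.map fun c => (a, b, c)

/-- A separating linear form between the open arcs `pq` and `rs`. -/
def sepB (p q r s : Z3) : Bool :=
  smallForms.any fun l => decide (0 ≤ dot l p) && decide (0 ≤ dot l q) && decide (dot l r ≤ 0) &&
    decide (dot l s ≤ 0) && decide (0 < dot l p + dot l q - dot l r - dot l s)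

theorem sep_ne {p q r s : Z3} (h : sepB p q r s = true) {a b c d : ℝ} (ha : 0 < a) (hb : 0 < b)
    (hc : 0 < c) (hd : 0 < d) : a • vec p + b • vec q ≠ c • vec r + d • vec s := by
  intro e
  simp only [sepB, List.any_eq_true, Bool.and_eq_true, decide_eq_true_eq] at h
  obtain ⟨l, -, ⟨⟨⟨h1, h2⟩, h3⟩, h4⟩, h5⟩ := h
  have e2 := congrArg (form l) e
  simp only [form_add, form_smul, form_vec] at e2
  have h1' : (0 : ℝ) ≤ dot l p := by exact_mod_cast h1
  have h2' : (0 : ℝ) ≤ dot l q := by exact_mod_cast h2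
  have h3' : (dot l r : ℝ) ≤ 0 := by exact_mod_cast h3
  have h4' : (dot l s : ℝ) ≤ 0 := by exact_mod_cast h4
  have h5' : (0 : ℝ) < dot l p + dot l q - dot l r - dot l s := by exact_mod_cast h5
  have a1 := mul_nonneg ha.le h1'
  have a2 := mul_nonneg hb.le h2'
  have a3 := mul_nonneg hc.le (neg_nonneg.2 h3')
  have a4 := mul_nonneg hd.le (neg_nonneg.2 h4')
  have z1 : a * dot l p = 0 := by nlinarith
  have z2 : b * dot l q = 0 := by nlinarith
  have z3 : c * dot l r = 0 := by nlinarith
  have z4 : d * dot l s = 0 := by nlinarith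
  have y1 := (mul_eq_zero.1 z1).resolve_left ha.ne'
  have y2 := (mul_eq_zero.1 z2).resolve_left hb.ne'
  have y3 := (mul_eq_zero.1 z3).resolve_left hc.ne'
  have y4 := (mul_eq_zero.1 z4).resolve_left hd.ne'
  linarith

def indB (p q : Z3) : Bool :=
  smallForms.any fun l => decide (0 < dot l p) && decide (dot l q = 0)

theorem indep_of {p q : Z3} (h1 : indB p q = true) (h2 : indB q p = true) :
    Indep (vec p) (vec q) := by
  intro a b e
  simp only [indB, List.any_eq_true, Bool.and_eq_true, decide_eq_true_eq] at h1 h2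
  obtain ⟨l, -, h3, h4⟩ := h1
  obtain ⟨l', -, h5, h6⟩ := h2
  have e1 := congrArg (form l) e
  have e2 := congrArg (form l') e
  simp only [form_add, form_smul, form_vec, form_zero, h4, h6] at e1 e2
  have h3' : (0 : ℝ) < dot l p := by exact_mod_cast h3
  have h5' : (0 : ℝ) < dot l' q := by exact_mod_cast h5
  constructor
  · have : a * dot l p = 0 := by simpa using e1
    exact (mul_eq_zero.1 this).resolve_right h3'.ne'
  · have : b * dot l' q = 0 := by simpa using e2
    exact (mul_eq_zero.1 this).resolve_right h5'.ne'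

theorem decomp (p q r : Z3) (y : E3) :
    (det p q r : ℝ) • y = form (cross q r) y • vec p + form (cross r p) y • vec q
      + form (cross p q) y • vec r := by
  ext i
  fin_cases i <;> simp [vec, form, cross, det, dot] <;> ring

theorem dot_cross_a (p q r : Z3) : dot (cross q r) p = det p q r := by
  simp [det, dot, cross]; ring
theorem dot_cross_b (p q r : Z3) : dot (cross r p) q = det p q r := by
  simp [det, dot, cross]; ring
theorem dot_cross_c (p q r : Z3) : dot (cross p q) r = det p q r := rfl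
theorem dot_cross_l (p q : Z3) : dot (cross p q) p = 0 := by
  simp [dot, cross]; ring
theorem dot_cross_r (p q : Z3) : dot (cross p q) q = 0 := by
  simp [dot, cross]; ring

end Pool.Agent.P.MP_072d80_co
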