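import Pool.Agent.P.MP_072d80_co.Face

set_option autoImplicit false

namespace Pool.Agent.P.MP_072d80_co

open Set Filter Topology

/-- Vertices of a gyrobifastigium. -/
def cG : Fin 8 → Z3 :=
  ![(1, 1, 0), (-1, 1, 0), (-1, -1, 0), (1, -1, 0), (0, 1, 1), (0, -1, 1), (1, 0, -1), (-1, 0, -1)]

/-- Vertices of a cube. -/
def cK : Fin 8 → Z3 :=
  ![(1, 1, 1), (1, 1, -1), (-1, -1, -1), (-1, -1, 1), (1, -1, 1), (-1, 1, 1), (1, -1, -1),
    (-1, 1, -1)]

def compl (N : List (Fin 8 × Fin 8)) : SimpleGraph (Fin 8) where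
  Adj u v := u ≠ v ∧ (u, v) ∉ N ∧ (v, u) ∉ N
  symm := ⟨fun _ _ h => ⟨h.1.symm, h.2.2, h.2.1⟩⟩
  loopless := ⟨fun _ h => h.1 rfl⟩

instance (N : List (Fin 8 × Fin 8)) : DecidableRel (compl N).Adj := fun u v =>
  inferInstanceAs (Decidable (u ≠ v ∧ (u, v) ∉ N ∧ (v, u) ∉ N))

def GG : SimpleGraph (Fin 8) := compl [(0, 2), (1, 3), (4, 6), (4, 7), (5, 6), (5, 7)]
def GK : SimpleGraph (Fin 8) := compl [(0, 2), (1, 3), (4, 7), (5, 6)]

instance : DecidableRel GG.Adj := inferInstanceAs (DecidableRel (compl _).Adj)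
instance : DecidableRel GK.Adj := inferInstanceAs (DecidableRel (compl _).Adj)

theorem goodG : Good GG cG where
  ne0 := by decide +kernel
  sepV := by decide +kernel
  ind := by decide +kernel
  sepE := by decide +kernel
  pair := by decide +kernel
  uniq := by decide +kernel

theorem goodK : Good GK cK where
  ne0 := by decide +kernel
  sepV := by decide +kernel
  ind := by decide +kernel
  sepE := by decide +kernel
  pair := by decide +kernel
  uniq := by decide +kernel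

theorem le_GK : GG ⊔ SimpleGraph.edge 4 6 ≤ GK := by
  intro u v h
  rw [SimpleGraph.sup_adj, SimpleGraph.edge_adj] at h
  revert u v
  decide +kernel

def U (u v : Fin 8) : Prop :=
  GG.Adj u v ∧ ∀ r s, GG.Adj r s → ¬ Par (cG u) (cG v) (cG r) (cG s)

instance (u v : Fin 8) : Decidable (U u v) := by unfold U; infer_instance

theorem unc_iff {u v : Fin 8} : goodG.geo.Uncrossed s(u, v) ↔ U u v := goodG.uncrossed_iff

def fv : Fin 8 → List (Fin 8) :=
  ![[0, 1, 4], [2, 3, 5], [0, 3, 6], [2, 1, 7], [3, 0, 4, 5], [1, 2, 5, 4], [1, 0, 6, 7],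
    [3, 2, 7, 6]]

def bd (i : Fin 8) : List (Fin 8 × Fin 8) := (fv i).zip ((fv i).rotate 1)

def fL (i : Fin 8) : List Z3 := (bd i).map fun e => cross (cG e.1) (cG e.2)

def fw (i : Fin 8) : Z3 := ((fv i).map cG).sum

theorem fL_ne : ∀ i, fL i ≠ [] := by decide +kernel
theorem fw_pos : ∀ i, ∀ l ∈ fL i, 0 < dot l (fw i) := by decide +kernel

theorem mem_skel {y : S2} :
    y ∈ goodG.geo.skeleton ↔ ∃ u v, U u v ∧ y ∈ cone (vec (cG u)) (vec (cG v)) := by
  rw [goodG.mem_skeleton]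
  · simp only [unc_iff]
  · simp only [unc_iff]
    decide +kernel

theorem mem_bdry (i : Fin 8) {y : S2} :
    y ∈ cface (fL i) \ face (fL i) ↔ ∃ e ∈ bd i, y ∈ cone (vec (cG e.1)) (vec (cG e.2)) := by
  constructor
  · intro h
    fin_cases i
    · rcases tri_bdry (p := cG 0) (q := cG 1) (r := cG 4) (by decide) h with h | h | h
      exacts [⟨(0, 1), by decide, h⟩, ⟨(1, 4), by decide, h⟩, ⟨(4, 0), by decide, h⟩]
    · rcases tri_bdry (p := cG 2) (q := cG 3) (r := cG 5) (by decide) h with h | h | h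
      exacts [⟨(2, 3), by decide, h⟩, ⟨(3, 5), by decide, h⟩, ⟨(5, 2), by decide, h⟩]
    · rcases tri_bdry (p := cG 0) (q := cG 3) (r := cG 6) (by decide) h with h | h | h
      exacts [⟨(0, 3), by decide, h⟩, ⟨(3, 6), by decide, h⟩, ⟨(6, 0), by decide, h⟩]
    · rcases tri_bdry (p := cG 2) (q := cG 1) (r := cG 7) (by decide) h with h | h | h
      exacts [⟨(2, 1), by decide, h⟩, ⟨(1, 7), by decide, h⟩, ⟨(7, 2), by decide, h⟩]
    · rcases quad_bdry (p := cG 3) (q := cG 0) (r := cG 4) (s := cG 5) (by decide) (by decide) h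
        with h | h | h | h
      exacts [⟨(3, 0), by decide, h⟩, ⟨(0, 4), by decide, h⟩, ⟨(4, 5), by decide, h⟩,
        ⟨(5, 3), by decide, h⟩]
    · rcases quad_bdry (p := cG 1) (q := cG 2) (r := cG 5) (s := cG 4) (by decide) (by decide) h
        with h | h | h | h
      exacts [⟨(1, 2), by decide, h⟩, ⟨(2, 5), by decide, h⟩, ⟨(5, 4), by decide, h⟩,
        ⟨(4, 1), by decide, h⟩]
    · rcases quad_bdry (p := cG 1) (q := cG 0) (r := cG 6) (s := cG 7) (by decide) (by decide) h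
        with h | h | h | h
      exacts [⟨(1, 0), by decide, h⟩, ⟨(0, 6), by decide, h⟩, ⟨(6, 7), by decide, h⟩,
        ⟨(7, 1), by decide, h⟩]
    · rcases quad_bdry (p := cG 3) (q := cG 2) (r := cG 7) (s := cG 6) (by decide) (by decide) h
        with h | h | h | h
      exacts [⟨(3, 2), by decide, h⟩, ⟨(2, 7), by decide, h⟩, ⟨(7, 6), by decide, h⟩,
        ⟨(6, 3), by decide, h⟩]
  · rintro ⟨e, he, hy⟩
    have k1 : ∀ i, ∀ e ∈ bd i, ∀ l ∈ fL i, 0 ≤ dot l (cG e.1) ∧ 0 ≤ dot l (cG e.2) := by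
      decide +kernel
    refine ⟨mem_cface_of_cone (k1 i e he) hy, ?_⟩
    exact not_mem_face_of_cone (l := cross (cG e.1) (cG e.2)) (List.mem_map.2 ⟨e, he, rfl⟩)
      (dot_cross_l _ _).le (dot_cross_r _ _).le hy

theorem mem_frontier (i : Fin 8) {y : S2} :
    y ∈ frontier (face (fL i)) ↔ ∃ e ∈ bd i, y ∈ cone (vec (cG e.1)) (vec (cG e.2)) := by
  rw [frontier_face (fL_ne i) (fw_pos i), mem_bdry]

theorem bd_U : ∀ i, ∀ e ∈ bd i, U e.1 e.2 := by decide +kernel

theorem face_sub (i : Fin 8) : face (fL i) ⊆ goodG.geo.skeletonᶜ := by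
  intro y hy hs
  obtain ⟨u, v, hU, h⟩ := mem_skel.1 hs
  have k : ∀ i u v, U u v → ∃ l ∈ fL i, dot l (cG u) ≤ 0 ∧ dot l (cG v) ≤ 0 := by
    decide +kernel
  obtain ⟨l, hl, h1, h2⟩ := k i u v hU
  exact not_mem_face_of_cone hl h1 h2 h hy

theorem bdry_sub (i : Fin 8) : cface (fL i) \ face (fL i) ⊆ goodG.geo.skeleton := by
  intro y hy
  obtain ⟨e, he, h⟩ := (mem_bdry i).1 hy
  exact mem_skel.2 ⟨e.1, e.2, bd_U i e he, h⟩

theorem fL_eq : fL = ![[(0, 0, 2), (1, 1, -1), (-1, 1, -1)], [(0, 0, 2), (-1, -1, -1), (1, -1, -1)],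
    [(0, 0, -2), (1, 1, 1), (1, -1, 1)], [(0, 0, -2), (-1, -1, 1), (-1, 1, 1)],
    [(0, 0, 2), (1, -1, 1), (2, 0, 0), (1, 1, 1)], [(0, 0, 2), (-1, 1, 1), (-2, 0, 0), (-1, -1, 1)],
    [(0, 0, -2), (-1, 1, -1), (0, 2, 0), (1, 1, -1)],
    [(0, 0, -2), (1, -1, -1), (0, -2, 0), (-1, -1, -1)]] := by decide +kernel

theorem cover (y : S2) : ∃ i, y ∈ cface (fL i) := by
  rw [fL_eq]
  rcases le_total 0 (y.1 2) with hz | hz
  · by_cases h1 : |y.1 0| + y.1 2 ≤ y.1 1
    · refine ⟨0, ?_⟩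
      have := abs_le.1 (le_refl |y.1 0|)
      simp [cface, form]
      refine ⟨?_, ?_, ?_⟩ <;> linarith [this.1, this.2]
    by_cases h2 : |y.1 0| + y.1 2 ≤ - y.1 1
    · refine ⟨1, ?_⟩
      have := abs_le.1 (le_refl |y.1 0|)
      simp [cface, form]
      refine ⟨?_, ?_, ?_⟩ <;> linarith [this.1, this.2]
    rcases le_total 0 (y.1 0) with hx | hx
    · refine ⟨4, ?_⟩
      rw [abs_of_nonneg hx] at h1 h2
      simp [cface, form]
      refine ⟨?_, ?_, ?_, ?_⟩ <;> linarith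
    · refine ⟨5, ?_⟩
      rw [abs_of_nonpos hx] at h1 h2
      simp [cface, form]
      refine ⟨?_, ?_, ?_, ?_⟩ <;> linarith
  · by_cases h1 : |y.1 1| - y.1 2 ≤ y.1 0
    · refine ⟨2, ?_⟩
      have := abs_le.1 (le_refl |y.1 1|)
      simp [cface, form]
      refine ⟨?_, ?_, ?_⟩ <;> linarith [this.1, this.2]
    by_cases h2 : |y.1 1| - y.1 2 ≤ - y.1 0
    · refine ⟨3, ?_⟩
      have := abs_le.1 (le_refl |y.1 1|)
      simp [cface, form]
      refine ⟨?_, ?_, ?_⟩ <;> linarith [this.1, this.2]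
    rcases le_total 0 (y.1 1) with hx | hx
    · refine ⟨6, ?_⟩
      rw [abs_of_nonneg hx] at h1 h2
      simp [cface, form]
      refine ⟨?_, ?_, ?_, ?_⟩ <;> linarith
    · refine ⟨7, ?_⟩
      rw [abs_of_nonpos hx] at h1 h2
      simp [cface, form]
      refine ⟨?_, ?_, ?_, ?_⟩ <;> linarith

theorem isFace_elim {F : Set S2} (h : goodG.geo.IsFace F) : ∃ i, F = face (fL i) := by
  obtain ⟨x, hx, rfl⟩ := h
  obtain ⟨i, hi⟩ := cover x
  have : x ∈ face (fL i) := by
    by_contra h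
    exact hx (bdry_sub i ⟨hi, h⟩)
  exact ⟨i, component_face (fL_ne i) (face_sub i) (bdry_sub i) this⟩

theorem pt_mem_cone {u v w : Fin 8} (a : GG.Adj u v) :
    nrm (vec (cG w)) ∈ cone (vec (cG u)) (vec (cG v)) ↔ w = u ∨ w = v := by
  refine ⟨goodG.avoid a, ?_⟩
  rintro (rfl | rfl)
  · exact nrm_mem_cone_left _ (vec_ne (goodG.ne0 _))
  · rw [cone_comm]; exact nrm_mem_cone_left _ (vec_ne (goodG.ne0 _))

theorem pt_mem_frontier (i w : Fin 8) : nrm (vec (cG w)) ∈ frontier (face (fL i)) ↔ w ∈ fv i := by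
  rw [mem_frontier]
  have k : ∀ i w, w ∈ fv i ↔ ∃ e ∈ bd i, w = e.1 ∨ w = e.2 := by decide +kernel
  rw [k]
  exact exists_congr fun e => and_congr_right fun he => pt_mem_cone (bd_U i e he).1

theorem bounded_verts {k : ℕ} [NeZero k] {i : Fin 8} {c : Fin k → Fin 8}
    (h : goodG.geo.BoundedBy (face (fL i)) c) (w : Fin 8) : w ∈ fv i ↔ ∃ j, w = c j := by
  rw [← pt_mem_frontier, h.2.2, mem_iUnion]
  constructor
  · rintro ⟨j, hj⟩
    rcases (pt_mem_cone (unc_iff.1 (h.2.1 j)).1).1 hj with e | e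
    exacts [⟨_, e⟩, ⟨_, e⟩]
  · rintro ⟨j, e⟩
    exact ⟨j, (pt_mem_cone (unc_iff.1 (h.2.1 j)).1).2 (Or.inl e)⟩

theorem bounded_tri {i : Fin 8} {a b c : Fin 8} (h : fv i = [a, b, c]) :
    goodG.geo.BoundedBy (face (fL i)) ![a, b, c] := by
  have hb : bd i = [(a, b), (b, c), (c, a)] := by simp [bd, h]
  have hn : ∀ i, (fv i).Nodup := by decide +kernel
  refine ⟨?_, ?_, ?_⟩
  · have := hn i
    rw [h] at this
    simp at this
    intro x y
    fin_cases x <;> fin_cases y <;> simp <;> tauto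
  · intro j
    rw [unc_iff]
    have := bd_U i
    rw [hb] at this
    fin_cases j
    exacts [this (a, b) (by simp), this (b, c) (by simp), this (c, a) (by simp)]
  · ext y
    rw [mem_frontier, hb, mem_iUnion]
    simp [Fin.exists_fin_succ, Good.geo_curve]

theorem bounded_quad {i : Fin 8} {a b c d : Fin 8} (h : fv i = [a, b, c, d]) :
    goodG.geo.BoundedBy (face (fL i)) ![a, b, c, d] := by
  have hb : bd i = [(a, b), (b, c), (c, d), (d, a)] := by simp [bd, h]
  have hn : ∀ i, (fv i).Nodup := by decide +kernel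
  refine ⟨?_, ?_, ?_⟩
  · have := hn i
    rw [h] at this
    simp at this
    intro x y
    fin_cases x <;> fin_cases y <;> simp <;> tauto
  · intro j
    rw [unc_iff]
    have := bd_U i
    rw [hb] at this
    fin_cases j
    exacts [this (a, b) (by simp), this (b, c) (by simp), this (c, d) (by simp),
      this (d, a) (by simp)]
  · ext y
    rw [mem_frontier, hb, mem_iUnion]
    simp [Fin.exists_fin_succ, Good.geo_curve]

theorem center_mem_face {i u v r : Fin 8} (hD : det (cG u) (cG v) (cG r) ≠ 0) :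
    nrm (vec (cG u) + vec (cG v)) ∈ face (fL i) ↔ ∀ l ∈ fL i, 0 < dot l (cG u + cG v) := by
  obtain ⟨k, hk, e⟩ := nrm_pos (sum_ne hD)
  refine forall_congr' fun l => forall_congr' fun _ => ?_
  rw [e, ← vec_add, form_smul, form_vec, mul_pos_iff_of_pos_left hk, Int.cast_pos]

theorem len_of_bounded {k : ℕ} [NeZero k] {i : Fin 8} {c : Fin k → Fin 8}
    (h : goodG.geo.BoundedBy (face (fL i)) c) : (fv i).length = k := by
  have hn : ∀ i, (fv i).Nodup := by decide +kernel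
  have h1 : (fv i).toFinset = Finset.univ.image c := by
    ext w
    simp [bounded_verts h w, eq_comm]
  rw [← List.toFinset_card_of_nodup (hn i), h1, Finset.card_image_of_injective _ h.1]
  simp

set_option synthInstance.maxSize 2000 in
theorem quad_fact : ∀ i, ∀ a ∈ fv i, ∀ b ∈ fv i, U a b → ∀ c ∈ fv i, U b c → a ≠ c →
    ∀ d ∈ fv i, U c d → U d a → b ≠ d → GG.Adj a c ∧ GG.Adj b d ∧
      Par (cG a) (cG c) (cG b) (cG d) ∧ (∀ l ∈ fL i, 0 < dot l (cG a + cG c)) ∧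
      (cG a + cG c) + (cG a + cG c) = fw i := by
  decide +kernel

set_option synthInstance.maxSize 2000 in
theorem quad_fact2 : ∀ i u v, (∀ l ∈ fL i, 0 < dot l (cG u + cG v)) → ∀ r s, GG.Adj u v →
    GG.Adj r s → Par (cG u) (cG v) (cG r) (cG s) → (cG u + cG v) + (cG u + cG v) = fw i := by
  decide +kernel

theorem nearOptimal : goodG.geo.NearOptimal where
  tri_or_quad := by
    intro F hF
    obtain ⟨i, rfl⟩ := isFace_elim hF
    fin_cases i
    exacts [Or.inl ⟨_, bounded_tri rfl⟩, Or.inl ⟨_, bounded_tri rfl⟩, Or.inl ⟨_, bounded_tri rfl⟩,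
      Or.inl ⟨_, bounded_tri rfl⟩, Or.inr ⟨_, bounded_quad rfl⟩, Or.inr ⟨_, bounded_quad rfl⟩,
      Or.inr ⟨_, bounded_quad rfl⟩, Or.inr ⟨_, bounded_quad rfl⟩]
  quad_crossing := by
    intro F hF c hc
    obtain ⟨i, rfl⟩ := isFace_elim hF
    have hv : ∀ j, c j ∈ fv i := fun j => (bounded_verts hc _).2 ⟨j, rfl⟩
    obtain ⟨k1, k2, k3, k4, k6⟩ := quad_fact i (c 0) (hv 0) (c 1) (hv 1) (unc_iff.1 (hc.2.1 0))
      (c 2) (hv 2) (unc_iff.1 (hc.2.1 1)) (fun e => by simpa using hc.1 e) (c 3) (hv 3)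
      (unc_iff.1 (hc.2.1 2)) (unc_iff.1 (hc.2.1 3)) (fun e => by simpa using hc.1 e)
    have k5 := quad_fact2 i
    refine ⟨_, (center_mem_face k3.1).2 k4, goodG.cross_iff.2 ⟨k1, k2, k3, rfl⟩, ?_⟩
    intro e f y hy hyF
    induction e using Sym2.ind with
    | h u v =>
    induction f using Sym2.ind with
    | h r s =>
    obtain ⟨a1, a2, hp, rfl⟩ := goodG.cross_iff.1 hy
    have h1 := k5 u v ((center_mem_face hp.1).1 hyF) r s a1 a2 hp
    have h2 : cG u + cG v = cG (c 0) + cG (c 2) := by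
      have h3 := h1.trans k6.symm
      simp only [Prod.ext_iff, Prod.fst_add, Prod.snd_add] at h3 ⊢
      omega
    rw [← vec_add, h2, vec_add]
  tri_no_crossing := by
    intro F hF c hc e f y hy hyF
    obtain ⟨i, rfl⟩ := isFace_elim hF
    induction e using Sym2.ind with
    | h u v =>
    induction f using Sym2.ind with
    | h r s =>
    obtain ⟨a1, a2, hp, rfl⟩ := goodG.cross_iff.1 hy
    have k : ∀ i, (fv i).length = 3 → ∀ u v, (∀ l ∈ fL i, 0 < dot l (cG u + cG v)) →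
        ∀ r s, GG.Adj u v → GG.Adj r s → ¬ Par (cG u) (cG v) (cG r) (cG s) := by
      decide +kernel
    exact k i (len_of_bounded hc) u v ((center_mem_face hp.1).1 hyF) r s a1 a2 hp
  tri_not_adjacent := by
    intro F F' hF hF' hne c c' hc hc' j j' e
    obtain ⟨i, rfl⟩ := isFace_elim hF
    obtain ⟨i', rfl⟩ := isFace_elim hF'
    have hii : i ≠ i' := by
      rintro rfl; exact hne rfl
    have k : ∀ i i', i ≠ i' → (fv i).length = 3 → (fv i').length = 3 →
        ∀ a ∈ fv i, a ∈ fv i' → ∀ b ∈ fv i, b ∈ fv i' → a = b := by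
      decide +kernel
    have hv : ∀ j, c j ∈ fv i := fun j => (bounded_verts hc _).2 ⟨j, rfl⟩
    have hv' : ∀ j, c' j ∈ fv i' := fun j => (bounded_verts hc' _).2 ⟨j, rfl⟩
    have hadj := (unc_iff.1 (hc.2.1 j)).1.ne
    apply hadj
    refine k i i' hii (len_of_bounded hc) (len_of_bounded hc') _ (hv _) ?_ _ (hv _) ?_
    · rcases Sym2.eq_iff.1 e with e | e <;> rw [e.1] <;> exact hv' _
    · rcases Sym2.eq_iff.1 e with e | e <;> rw [e.2] <;> exact hv' _

theorem counterexample :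
    ∃ (G : SimpleGraph (Fin 8)) (D : Drawing G), D.IsOnePlane ∧ D.NearOptimal ∧
      ∃ u v, u ≠ v ∧ ¬ G.Adj u v ∧ IsOnePlanar (G ⊔ SimpleGraph.edge u v) :=
  ⟨GG, goodG.geo, goodG.onePlane, nearOptimal, 4, 6, by decide, by decide,
    (goodK.mono le_GK).geo, (goodK.mono le_GK).onePlane⟩

end Pool.Agent.P.MP_072d80_co
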